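import Pool.Agent.X178.SD.Top

/-! The coefficients of the powers of `G` have the expected degree. -/

namespace Pool.Agent.X178.SD

open Polynomial Finset Filter

/-- The tuples `s₁, …, s_l ≥ 0` with `s₁ + 2 s₂ + … + l s_l = l` (the entry `j : Fin l` is
`s_{j+1}`; the entries are at most `l`, see `mem_tuples`). -/
def tuples (l : ℕ) : Finset (Fin l → ℕ) :=
  (Fintype.piFinset fun _ => range (l + 1)).filter fun s => ∑ j, (j.1 + 1) * s j = l

theorem mem_tuples {l : ℕ} (s : Fin l → ℕ) : s ∈ tuples l ↔ ∑ j, (j.1 + 1) * s j = l := by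
  unfold tuples
  rw [mem_filter, Fintype.mem_piFinset]
  constructor
  · exact fun h => h.2
  · intro h
    refine ⟨fun j => ?_, h⟩
    rw [mem_range]
    have h1 := single_le_sum (f := fun j : Fin l => (j.1 + 1) * s j) (s := univ)
      (fun _ _ => Nat.zero_le _) (mem_univ j)
    rw [h] at h1
    have h2 : 1 * s j ≤ (j.1 + 1) * s j := Nat.mul_le_mul_right _ (by omega)
    omega

/-- The polynomial `T` of a sequence `V`. -/
noncomputable def Tseq {A : Type} [CommRing A] [Algebra ℚ A] (l : ℕ) (V : ℕ → A[X]) : A[X][X] :=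
  ∑ s ∈ tuples l, ∏ j : Fin l, binom (X * C (V (j.1 + 1))) (s j)

section

variable {A : Type} [CommRing A] [Algebra ℚ A]

omit [Algebra ℚ A] in
theorem Ψ_arg (p : A[X]) (D : ℕ) (hD : 1 ≤ D) (hp : p.natDegree ≤ D - 1) :
    (Ψ (X * C p)).natDegree ≤ D ∧ (Ψ (X * C p)).coeff D = X * C (p.coeff (D - 1)) := by
  have e1 : Ψ (X * C p) = C X * (p.map C * X) := by
    unfold Ψ
    rw [coe_eval₂RingHom, eval₂_mul, eval₂_X, eval₂_C, coe_mapRingHom]
    ring
  obtain ⟨E, rfl⟩ : ∃ E, D = E + 1 := ⟨D - 1, by omega⟩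
  simp only [Nat.add_sub_cancel] at hp ⊢
  rw [e1]
  constructor
  · refine (natDegree_C_mul_le _ _).trans ?_
    refine (natDegree_mul_le).trans ?_
    have := natDegree_map_le (f := (C : A →+* A[X])) (p := p)
    have h2 : (X : A[X][X]).natDegree ≤ 1 := natDegree_X_le
    omega
  · rw [coeff_C_mul, coeff_mul_X, coeff_map]

theorem top_T (l d : ℕ) (hd : 1 ≤ d) (V : ℕ → A[X])
    (hV : ∀ j, 1 ≤ j → (V j).natDegree ≤ j * d - 1) :
    (Ψ (Tseq l V)).natDegree ≤ l * d ∧ (Ψ (Tseq l V)).coeff (l * d) =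
      ∑ s ∈ tuples l, C (∏ j : Fin l, ((s j).factorial : ℚ)⁻¹ •
        ((V (j.1 + 1)).coeff ((j.1 + 1) * d - 1)) ^ s j) * X ^ (∑ j, s j) := by
  have key : ∀ s ∈ tuples l,
      (∏ j : Fin l, binom (Ψ (X * C (V (j.1 + 1)))) (s j)).natDegree ≤ l * d ∧
      (∏ j : Fin l, binom (Ψ (X * C (V (j.1 + 1)))) (s j)).coeff (l * d) =
        C (∏ j : Fin l, ((s j).factorial : ℚ)⁻¹ •
        ((V (j.1 + 1)).coeff ((j.1 + 1) * d - 1)) ^ s j) * X ^ (∑ j, s j) := by
    intro s hs
    rw [mem_tuples] at hs
    have hD : ∀ j : Fin l, 1 ≤ (j.1 + 1) * d := fun j => Nat.mul_pos (by omega) hd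
    have h1 := fun j : Fin l => Ψ_arg (V (j.1 + 1)) ((j.1 + 1) * d) (hD j)
      (hV (j.1 + 1) (by omega))
    have h2 := fun j : Fin l => top_binom (Ψ (X * C (V (j.1 + 1)))) ((j.1 + 1) * d) (s j) (hD j)
      (h1 j).1
    obtain ⟨h3, h4⟩ := top_prod (univ : Finset (Fin l))
      (fun j => binom (Ψ (X * C (V (j.1 + 1)))) (s j)) (fun j => s j * ((j.1 + 1) * d))
      (fun j _ => (h2 j).1)
    have h5 : ∑ j : Fin l, s j * ((j.1 + 1) * d) = l * d := by
      conv_rhs => rw [← hs, sum_mul]
      apply sum_congr rfl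
      intro j _
      ring
    rw [h5] at h3 h4
    refine ⟨h3, ?_⟩
    rw [h4, map_prod, prod_pow_eq_pow_sum univ s X |>.symm, ← prod_mul_distrib]
    apply prod_congr rfl
    intro j _
    rw [(h2 j).2, (h1 j).2, mul_pow, ← smul_C, C_pow, smul_mul_assoc, mul_comm]
  have e : Ψ (Tseq l V) = ∑ s ∈ tuples l, ∏ j : Fin l, binom (Ψ (X * C (V (j.1 + 1)))) (s j) := by
    unfold Tseq
    rw [map_sum]
    apply sum_congr rfl
    intro s _
    rw [map_prod]
    apply prod_congr rfl
    intro j _
    rw [map_binom]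
  rw [e]
  constructor
  · exact natDegree_sum_le_of_forall_le _ _ (fun s hs => (key s hs).1)
  · rw [finsetSum_coeff]
    exact sum_congr rfl (fun s hs => (key s hs).2)

theorem coeff_T (l d : ℕ) (hd : 1 ≤ d) (V : ℕ → A[X])
    (hV : ∀ j, 1 ≤ j → (V j).natDegree ≤ j * d - 1) (k m : ℕ) :
    (l * d < k + m → ((Tseq l V).coeff k).coeff m = 0) ∧
    (k + m = l * d → ((Tseq l V).coeff k).coeff m =
      ∑ s ∈ (tuples l).filter (fun s => ∑ j, s j = k), ∏ j : Fin l, ((s j).factorial : ℚ)⁻¹ •
        ((V (j.1 + 1)).coeff ((j.1 + 1) * d - 1)) ^ s j) := by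
  obtain ⟨h1, h2⟩ := top_T l d hd V hV
  constructor
  · intro h
    rw [← coeff_Ψ, coeff_eq_zero_of_natDegree_lt (lt_of_le_of_lt h1 h), coeff_zero]
  · intro h
    rw [← coeff_Ψ, h, h2, finsetSum_coeff, sum_filter]
    apply sum_congr rfl
    intro s _
    rw [coeff_C_mul, coeff_X_pow]
    split_ifs with h3 h4 h4
    · rw [mul_one]
    · exact absurd h3.symm h4
    · exact absurd h4.symm h3
    · rw [mul_zero]

end

theorem lead_nonneg (p : ℚ[X]) (h : ∀ b : ℕ, 1 ≤ b → 0 ≤ p.eval (b : ℚ)) :
    0 ≤ p.leadingCoeff := by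
  by_contra hneg
  push Not at hneg
  by_cases hd : 0 < p.degree
  · have h1 := tendsto_atBot_of_leadingCoeff_nonpos p hd hneg.le
    have h2 := h1.comp (tendsto_natCast_atTop_atTop (R := ℚ))
    obtain ⟨N, hN⟩ := (h2.eventually (eventually_lt_atBot 0)).exists_forall_of_atTop
    have h3 := hN (N + 1) (by omega)
    have h4 := h (N + 1) (by omega)
    simp only [Function.comp_apply] at h3
    linarith
  · rw [not_lt] at hd
    have h1 := eq_C_of_degree_le_zero hd
    have h2 := h 1 le_rfl
    rw [h1, eval_C] at h2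
    rw [h1, leadingCoeff_C] at hneg
    linarith

/-- **The degrees.** -/
theorem degree_T (l d : ℕ) (hd : 1 ≤ d) (V : ℕ → ℚ[X][X])
    (hV : ∀ j, 1 ≤ j → (V j).degree = ((j * d - 1 : ℕ) : WithBot ℕ))
    (hpos : ∀ j, 1 ≤ j → ∀ b c : ℕ, 1 ≤ b → 1 ≤ c → 0 ≤ (V j).evalEval (c : ℚ) (b : ℚ))
    (k : ℕ) (hk : 1 ≤ k) (hkl : k ≤ l) :
    ((Tseq l V).coeff k).degree = ((l * d - k : ℕ) : WithBot ℕ) := by
  have hVn : ∀ j, 1 ≤ j → (V j).natDegree ≤ j * d - 1 := fun j hj =>
    (natDegree_eq_of_degree_eq_some (hV j hj)).le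
  have hc := coeff_T l d hd V hVn
  have hld : k ≤ l * d := hkl.trans (Nat.le_mul_of_pos_right _ hd)
  apply degree_eq_of_le_of_coeff_ne_zero
  · rw [degree_le_iff_coeff_zero]
    intro m hm
    have : l * d - k < m := by exact_mod_cast hm
    exact (hc k m).1 (by omega)
  · -- the leading coefficients
    have hu : ∀ j, 1 ≤ j → (V j).coeff (j * d - 1) ≠ 0 := fun j hj =>
      coeff_ne_zero_of_eq_degree (hV j hj)
    set W : ℚ[X] := X * ∏ j : Fin l, (V (j.1 + 1)).coeff ((j.1 + 1) * d - 1) with hW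
    have hW0 : W ≠ 0 := by
      rw [hW]
      refine mul_ne_zero X_ne_zero (prod_ne_zero_iff.2 fun j _ => hu _ (by omega))
    obtain ⟨c, hcW⟩ : ∃ c : ℕ, W.eval (c : ℚ) ≠ 0 := by
      by_contra hcon
      push Not at hcon
      apply hW0
      apply eq_zero_of_infinite_isRoot
      refine Set.Infinite.mono ?_ (Set.infinite_range_of_injective (Nat.cast_injective (R := ℚ)))
      rintro _ ⟨c, rfl⟩
      exact hcon c
    rw [hW, eval_mul, eval_X, eval_prod] at hcW
    have hc0 : 1 ≤ c := by
      rcases Nat.eq_zero_or_pos c with h | h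
      · rw [h] at hcW; simp at hcW
      · exact h
    have hne : ∀ j : Fin l, eval (c : ℚ) ((V (j.1 + 1)).coeff ((j.1 + 1) * d - 1)) ≠ 0 := fun j =>
      prod_ne_zero_iff.1 (right_ne_zero_of_mul hcW) j (mem_univ j)
    have hposu : ∀ j : Fin l, 0 < eval (c : ℚ) ((V (j.1 + 1)).coeff ((j.1 + 1) * d - 1)) := by
      intro j
      refine lt_of_le_of_ne ?_ (hne j).symm
      set q : ℚ[X] := (V (j.1 + 1)).map (evalRingHom (c : ℚ)) with hq
      have hqc : q.coeff ((j.1 + 1) * d - 1) =
          eval (c : ℚ) ((V (j.1 + 1)).coeff ((j.1 + 1) * d - 1)) := by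
        rw [hq, coeff_map, coe_evalRingHom]
      have hqd : q.natDegree = (j.1 + 1) * d - 1 := by
        apply le_antisymm
        · exact (natDegree_map_le).trans (hVn _ (by omega))
        · apply le_natDegree_of_ne_zero
          rw [hqc]
          exact hne j
      have h1 := lead_nonneg q (fun b hb => by
        have := hpos (j.1 + 1) (by omega) b c hb hc0
        rw [hq, map_evalRingHom_eval]
        exact this)
      rw [leadingCoeff, hqd, hqc] at h1
      exact h1
    have hfin := (hc k (l * d - k)).2 (by omega)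
    rw [hfin]
    intro h0
    have h1 := congrArg (eval (c : ℚ)) h0
    rw [eval_zero, eval_finsetSum] at h1
    simp only [eval_prod, eval_smul, eval_pow, smul_eq_mul] at h1
    have h2 : 0 < ∑ s ∈ (tuples l).filter (fun s => ∑ j, s j = k),
        ∏ j : Fin l, ((s j).factorial : ℚ)⁻¹ *
          (eval (c : ℚ) ((V (j.1 + 1)).coeff ((j.1 + 1) * d - 1))) ^ s j := by
      apply sum_pos
      · intro s _
        apply prod_pos
        intro j _
        have := hposu j
        positivity
      · -- one tuple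
        refine ⟨fun j => (if j.1 = 0 then k - 1 else 0) + (if j.1 = l - k then 1 else 0), ?_⟩
        have hl : 0 < l := by omega
        rw [mem_filter, mem_tuples]
        constructor
        · have e1 : ∀ j : Fin l, (j.1 + 1) * ((if j.1 = 0 then k - 1 else 0) +
              (if j.1 = l - k then 1 else 0)) =
              (if j = ⟨0, hl⟩ then k - 1 else 0) + (if j = ⟨l - k, by omega⟩ then l - k + 1 else 0) := by
            intro j
            rw [mul_add]
            congr 1
            · by_cases h : j = ⟨0, hl⟩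
              · subst h; simp
              · rw [if_neg h, if_neg (fun h' => h (Fin.ext h')), mul_zero]
            · by_cases h : j = ⟨l - k, by omega⟩
              · subst h; simp
              · rw [if_neg h, if_neg (fun h' => h (Fin.ext h')), mul_zero]
          rw [sum_congr rfl (fun j _ => e1 j), sum_add_distrib, sum_ite_eq' univ, sum_ite_eq' univ]
          simp only [mem_univ, if_true]
          omega
        · have e1 : ∀ j : Fin l, ((if j.1 = 0 then k - 1 else 0) +
              (if j.1 = l - k then 1 else 0)) =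
              (if j = ⟨0, hl⟩ then k - 1 else 0) + (if j = ⟨l - k, by omega⟩ then 1 else 0) := by
            intro j
            congr 1
            · by_cases h : j = ⟨0, hl⟩
              · subst h; simp
              · rw [if_neg h, if_neg (fun h' => h (Fin.ext h'))]
            · by_cases h : j = ⟨l - k, by omega⟩
              · subst h; simp
              · rw [if_neg h, if_neg (fun h' => h (Fin.ext h'))]
          rw [sum_congr rfl (fun j _ => e1 j), sum_add_distrib, sum_ite_eq' univ, sum_ite_eq' univ]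
          simp only [mem_univ, if_true]
          omega
    exact h2.ne' h1

end Pool.Agent.X178.SD
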