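import Mathlib

/-! Polynomials in `G` and `b` over a ring: the top homogeneous part (total degree in `G`, `b`). -/

namespace Pool.Agent.X178.SD

open Polynomial Finset

/-- The binomial coefficient `x (x - 1) ⋯ (x - s + 1) / s!`. -/
noncomputable def binom {B : Type} [CommRing B] [Algebra ℚ B] (x : B) (s : ℕ) : B :=
  ((s.factorial : ℚ)⁻¹) • ∏ i ∈ range s, (x - (i : B))

theorem map_binom {B B' : Type} [CommRing B] [Algebra ℚ B] [CommRing B'] [Algebra ℚ B']
    (f : B →+* B') (x : B) (s : ℕ) : f (binom x s) = binom (f x) s := by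
  unfold binom
  rw [map_rat_smul f, map_prod]
  simp

/-- Top coefficient of a product. -/
theorem top_prod {R ι : Type} [CommRing R] (s : Finset ι) (f : ι → R[X]) (n : ι → ℕ)
    (h : ∀ i ∈ s, (f i).natDegree ≤ n i) :
    (∏ i ∈ s, f i).natDegree ≤ ∑ i ∈ s, n i ∧
      (∏ i ∈ s, f i).coeff (∑ i ∈ s, n i) = ∏ i ∈ s, (f i).coeff (n i) := by
  classical
  induction s using Finset.induction_on with
  | empty => simp
  | insert a s ha ih =>
    obtain ⟨h1, h2⟩ := ih (fun i hi => h i (mem_insert_of_mem hi))
    have h3 := h a (mem_insert_self _ _)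
    rw [prod_insert ha, sum_insert ha, prod_insert ha]
    constructor
    · exact natDegree_mul_le_of_le h3 h1
    · rw [coeff_mul_add_eq_of_natDegree_le h3 h1, h2]

/-- Top coefficient of a binomial coefficient. -/
theorem top_binom {R : Type} [CommRing R] [Algebra ℚ R] (x : R[X]) (D s : ℕ) (hD : 1 ≤ D)
    (hx : x.natDegree ≤ D) :
    (binom x s).natDegree ≤ s * D ∧
      (binom x s).coeff (s * D) = ((s.factorial : ℚ)⁻¹) • (x.coeff D) ^ s := by
  have h1 : ∀ i ∈ range s, (x - (i : R[X])).natDegree ≤ D := by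
    intro i _
    refine (natDegree_sub_le _ _).trans (max_le hx ?_)
    rw [natDegree_natCast]; omega
  obtain ⟨h2, h3⟩ := top_prod (range s) (fun i => x - (i : R[X])) (fun _ => D) h1
  rw [sum_const, card_range, smul_eq_mul] at h2 h3
  have h4 : ∀ i ∈ range s, (x - (i : R[X])).coeff D = x.coeff D := by
    intro i _
    rw [coeff_sub, coeff_natCast_ite, if_neg (by omega), Nat.cast_zero, sub_zero]
  rw [prod_congr rfl h4, prod_const, card_range] at h3
  unfold binom
  constructor
  · exact (natDegree_smul_le _ _).trans h2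
  · rw [coeff_smul, h3]

/-- `G ↦ g t`, `b ↦ t`. -/
noncomputable def Ψ {A : Type} [CommRing A] : A[X][X] →+* A[X][X] :=
  eval₂RingHom (mapRingHom (C : A →+* A[X])) (C X * X)

theorem coeff_Ψ {A : Type} [CommRing A] (P : A[X][X]) (k m : ℕ) :
    ((Ψ P).coeff (k + m)).coeff k = (P.coeff k).coeff m := by
  induction P using Polynomial.induction_on' with
  | add p q hp hq => rw [map_add, coeff_add, coeff_add, hp, hq, coeff_add, coeff_add]
  | monomial n p =>
    have e1 : Ψ (monomial n p) = p.map C * C (X ^ n) * X ^ n := by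
      unfold Ψ
      rw [coe_eval₂RingHom, eval₂_monomial, coe_mapRingHom, mul_pow, ← C_pow, mul_assoc]
    rw [e1, coeff_monomial]
    by_cases hkn : n ≤ k + m
    · obtain ⟨r, hr⟩ := Nat.exists_eq_add_of_le hkn
      rw [hr, add_comm n r, coeff_mul_X_pow, coeff_mul_C, coeff_map, coeff_C_mul, coeff_X_pow]
      by_cases h : n = k
      · subst h
        have : r = m := by omega
        subst this
        simp
      · rw [if_neg (fun h' => h h'.symm), if_neg h, mul_zero, coeff_zero]
    · rw [coeff_mul_X_pow', if_neg hkn, coeff_zero, if_neg (by omega), coeff_zero]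

end Pool.Agent.X178.SD
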